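import Pool.Agent.H977.E6.QG

/-! # The number of deletions forcing path cover number `k`, above the Hamiltonicity threshold

Let `n p - log n - log log n → ∞` and `K(n)^15 = o(n p)` (for instance `K` any constant). With high
probability, simultaneously for all `2 ≤ k ≤ K(n)`, the least number `f_k(G)` of edges of
`G = G(n,p)` whose deletion leaves a graph of path cover number `k` is the least number of edges of
`G` meeting a set of `k - 1` vertices.

All notions of the statement are defined in this file. -/

open Filter Topology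

namespace Pool.Agent.Results.MP_e6ec33_pr.DeletionNumberFullRange

/-- A path cover of `H`: a list of nonempty lists of vertices, consecutive entries of each list
being adjacent in `H`, such that every vertex occurs exactly once in total. -/
def PathCover {V : Type*} (H : SimpleGraph V) (L : List (List V)) : Prop :=
  (∀ l ∈ L, l ≠ [] ∧ l.IsChain H.Adj) ∧ L.flatten.Nodup ∧ ∀ v, v ∈ L.flatten

/-- The path cover number `μ(H)`. -/
noncomputable def mu {V : Type*} (H : SimpleGraph V) : ℕ :=
  sInf {m | ∃ L, PathCover H L ∧ L.length = m}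

/-- `f_k(G)`: the least size of a set `F` of edges of `G` with `μ(G - F) = k` (`⊤` if none). -/
noncomputable def fdel {V : Type*} (k : ℕ) (G : SimpleGraph V) : ℕ∞ :=
  ⨅ (F : Finset (Sym2 V)) (_ : (F : Set (Sym2 V)) ⊆ G.edgeSet ∧
    mu (G.deleteEdges (F : Set (Sym2 V))) = k), (F.card : ℕ∞)

/-- The least number of edges of `G` having an end in `S`, over all sets `S` of `k - 1`
vertices. -/
noncomputable def minMeet {V : Type*} (k : ℕ) (G : SimpleGraph V) : ℕ :=
  sInf {c | ∃ S : Finset V, S.card = k - 1 ∧ {e ∈ G.edgeSet | ∃ v ∈ S, v ∈ e}.ncard = c}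

/-- Above the Hamiltonicity threshold, w.h.p. `f_k(G)` is the least number of edges meeting a set
of `k - 1` vertices, simultaneously for all `2 ≤ k ≤ K(n)`, whenever `K(n)^15 = o(n p)`; in
particular for every fixed `k ≥ 2`. -/
theorem result (p : ℕ → unitInterval)
    (hp : Tendsto (fun n : ℕ => (n : ℝ) * (p n : ℝ) - Real.log n - Real.log (Real.log n))
      atTop atTop)
    (K : ℕ → ℕ) (hK : Tendsto (fun n : ℕ => (K n : ℝ) ^ 15 / ((n : ℝ) * (p n : ℝ))) atTop (𝓝 0)) :
    Tendsto (fun n : ℕ => (SimpleGraph.binomialRandom (Fin n) (p n))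
      {G : SimpleGraph (Fin n) | ∀ k : ℕ, 2 ≤ k → k ≤ K n →
        fdel k G = ((minMeet k G : ℕ) : ℕ∞)}) atTop (𝓝 1) := by
  have h := Pool.Agent.H977.E6.Q.main p hp hK
  refine h.congr fun n => ?_
  congr 1
  ext G
  have e1 : ∀ k, minMeet k G = Pool.Agent.V11328.E6.minTouch k G := by
    intro k
    unfold minMeet Pool.Agent.V11328.E6.minTouch
    congr 1
    ext c
    refine exists_congr fun S => and_congr_right fun _ => ?_
    have : {e ∈ G.edgeSet | ∃ v ∈ S, v ∈ e} = (Pool.Agent.V11328.E6.touching G S : Set _) := by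
      ext e
      simp [Pool.Agent.V11328.E6.touching]
    rw [this, Set.ncard_coe_finset]
  have e2 : ∀ k, fdel k G = Pool.Agent.V11328.E6.fk k G := fun k => rfl
  rw [Set.mem_ofPred_eq, Set.mem_ofPred_eq]
  simp only [e1, e2]

end Pool.Agent.Results.MP_e6ec33_pr.DeletionNumberFullRange
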